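import Pool.Agent.H56.EH.Def

/-!
# ELSS for `m ≥ n² / 4` (MP_737bdd_co): Lemma Lambda

For every antiperiodic word `w` there is a probability `c` on the up-changes of `w` with
`∑ c b * min (dist p b) (L / 2) ≤ dist p w` for all `p` (all distances doubled).
-/

set_option autoImplicit false
set_option linter.unusedSectionVars false
set_option linter.style.haveILetI false

namespace Pool.Agent.H56.EH

open Finset

variable {L : ℕ} [NeZero L]

namespace LamProof

lemma Lpos : 0 < L := Nat.pos_of_ne_zero (NeZero.ne L)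

lemma LL : (L : ZMod (2 * L)) + (L : ZMod (2 * L)) = 0 := by
  have h : ((2 * L : ℕ) : ZMod (2 * L)) = 0 := ZMod.natCast_self _
  have h2 : ((2 * L : ℕ) : ZMod (2 * L)) = (L : ZMod (2 * L)) + (L : ZMod (2 * L)) := by
    push_cast
    ring
  rw [← h2, h]

lemma val_L : ((L : ZMod (2 * L))).val = L := by
  rw [ZMod.val_natCast]
  exact Nat.mod_eq_of_lt (by have := Lpos (L := L); omega)

lemma L_ne : (L : ZMod (2 * L)) ≠ 0 := by
  intro h
  have h1 := val_L (L := L)
  rw [h, ZMod.val_zero] at h1
  exact NeZero.ne L h1.symm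

lemma one_ne : (1 : ZMod (2 * L)) ≠ 0 := by
  have hL := Lpos (L := L)
  haveI : Fact (1 < 2 * L) := ⟨by omega⟩
  exact one_ne_zero

lemma val_one' : (1 : ZMod (2 * L)).val = 1 := by
  have hL := Lpos (L := L)
  haveI : Fact (1 < 2 * L) := ⟨by omega⟩
  exact ZMod.val_one _

/-- `(x - 1).val` for `x ≠ 0`. -/
lemma val_pred {x : ZMod (2 * L)} (hx : x ≠ 0) : (x - 1).val = x.val - 1 := by
  have h0 : x.val ≠ 0 := by
    intro h
    exact hx ((ZMod.val_eq_zero x).mp h)
  rw [ZMod.val_sub]
  · rw [val_one']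
  · rw [val_one']
    omega

lemma val_zero_pred : ((0 : ZMod (2 * L)) - 1).val = 2 * L - 1 := by
  have hL := Lpos (L := L)
  rw [zero_sub, ZMod.neg_val, if_neg one_ne, val_one']

lemma val_addL (x : ZMod (2 * L)) :
    (x + (L : ZMod (2 * L))).val = if x.val < L then x.val + L else x.val - L := by
  have hL := Lpos (L := L)
  have hx := ZMod.val_lt x
  rw [ZMod.val_add, val_L]
  split_ifs with h
  · exact Nat.mod_eq_of_lt (by omega)
  · rw [Nat.mod_eq_sub_mod (by omega)]
    rw [Nat.mod_eq_of_lt (by omega)]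
    omega

lemma oc_anti (p : ZMod (2 * L)) : Anti L (oc L p) := by
  intro i
  unfold oc
  have h : i + (L : ZMod (2 * L)) - p = (i - p) + (L : ZMod (2 * L)) := by ring
  rw [h, val_addL]
  have hx := ZMod.val_lt (i - p)
  by_cases h1 : (i - p).val < L
  · simp [h1]
  · simp only [h1, if_false, decide_false, Bool.not_false]
    simp
    omega

/-- `oc (p + 1)` is obtained from `oc p` by changing the places `p` and `p + L`. -/
lemma oc_succ (p i : ZMod (2 * L)) :
    oc L (p + 1) i = if i = p then false else if i = p + (L : ZMod (2 * L)) then true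
      else oc L p i := by
  have hL := Lpos (L := L)
  unfold oc
  have h : i - (p + 1) = (i - p) - 1 := by ring
  rw [h]
  by_cases h1 : i = p
  · subst h1
    rw [if_pos rfl, sub_self, val_zero_pred]
    simp
    omega
  · rw [if_neg h1]
    have hx0 : i - p ≠ 0 := sub_ne_zero.mpr h1
    rw [val_pred hx0]
    by_cases h2 : i = p + (L : ZMod (2 * L))
    · rw [if_pos h2]
      have h3 : i - p = (L : ZMod (2 * L)) := by rw [h2]; ring
      rw [h3, val_L]
      simp
      omega
    · rw [if_neg h2]
      have h3 : (i - p).val ≠ L := by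
        intro h4
        apply h2
        have h5 : i - p = (L : ZMod (2 * L)) := by
          apply ZMod.val_injective
          rw [h4, val_L]
        rw [← h5]; ring
      have h6 : (i - p).val ≠ 0 := by
        intro h
        exact hx0 ((ZMod.val_eq_zero _).mp h)
      congr 1
      apply propext
      omega

/-- the doubled distance as a sum -/
lemma hd_eq_sum (w w' : ZMod (2 * L) → Bool) :
    (hd w w' : ℤ) = ∑ i, (if w i ≠ w' i then (1 : ℤ) else 0) := by
  unfold hd
  rw [Finset.card_filter]
  push_cast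
  rfl

lemma hd_comm (w w' : ZMod (2 * L) → Bool) : hd w w' = hd w' w := by
  unfold hd
  congr 1
  ext i
  simp [ne_comm]

lemma hd_self (w : ZMod (2 * L) → Bool) : hd w w = 0 := by
  unfold hd
  simp

/-- one step of the walk -/
lemma step (w : ZMod (2 * L) → Bool) (hw : Anti L w) (p : ZMod (2 * L)) :
    (hd (oc L (p + 1)) w : ℤ) = hd (oc L p) w + (if w p = true then 2 else -2) := by
  have hL := Lpos (L := L)
  have hne : p + (L : ZMod (2 * L)) ≠ p := by
    intro h
    exact L_ne (L := L) (by simpa using h)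
  rw [hd_eq_sum, hd_eq_sum]
  have h1 : ∑ i, (if oc L (p + 1) i ≠ w i then (1 : ℤ) else 0) -
      ∑ i, (if oc L p i ≠ w i then (1 : ℤ) else 0) = (if w p = true then 2 else -2) := by
    rw [← Finset.sum_sub_distrib]
    have h2 : ∀ i, (if oc L (p + 1) i ≠ w i then (1 : ℤ) else 0) -
        (if oc L p i ≠ w i then (1 : ℤ) else 0) =
        (if i = p then (if w p = true then (1 : ℤ) else -1) else 0) +
        (if i = p + (L : ZMod (2 * L)) then (if w p = true then (1 : ℤ) else -1) else 0) := by
      intro i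
      rw [oc_succ]
      by_cases h3 : i = p
      · subst h3
        have h4 : oc L i i = true := by
          unfold oc
          simp [hL]
        have h5 : i ≠ i + (L : ZMod (2 * L)) := fun h => hne h.symm
        rw [if_pos rfl, if_pos rfl, if_neg h5, h4]
        cases w i <;> simp
      · rw [if_neg h3, if_neg h3]
        by_cases h5 : i = p + (L : ZMod (2 * L))
        · rw [if_pos h5, if_pos h5]
          have h6 : oc L p i = false := by
            rw [h5, oc_anti p p]
            unfold oc
            simp [hL]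
          have h7 : w i = !w p := by rw [h5, hw p]
          rw [h6, h7]
          cases w p <;> simp
        · rw [if_neg h5, if_neg h5]
          simp
    rw [Finset.sum_congr rfl fun i _ => h2 i, Finset.sum_add_distrib]
    simp only [Finset.sum_ite_eq', Finset.mem_univ, if_true]
    split_ifs <;> norm_num
  linarith

/-- antisymmetry of the walk -/
lemma anti (w : ZMod (2 * L) → Bool) (p : ZMod (2 * L)) :
    (hd (oc L (p + (L : ZMod (2 * L)))) w : ℤ) = 2 * L - hd (oc L p) w := by
  have h0 : ∀ i, oc L (p + (L : ZMod (2 * L))) i = !oc L p i := by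
    intro i
    have h1 := oc_anti (L := L) (p + (L : ZMod (2 * L))) i
    have h2 : oc L (p + (L : ZMod (2 * L))) (i + (L : ZMod (2 * L))) = oc L p i := by
      unfold oc
      congr 2
      ring_nf
    rw [h2] at h1
    rw [h1]
    simp
  rw [hd_eq_sum, hd_eq_sum]
  have h3 : ∑ i, (if oc L (p + (L : ZMod (2 * L))) i ≠ w i then (1 : ℤ) else 0) +
      ∑ i, (if oc L p i ≠ w i then (1 : ℤ) else 0) = 2 * L := by
    rw [← Finset.sum_add_distrib]
    have h4 : ∀ i : ZMod (2 * L), (if oc L (p + (L : ZMod (2 * L))) i ≠ w i then (1 : ℤ) else 0) +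
        (if oc L p i ≠ w i then (1 : ℤ) else 0) = 1 := by
      intro i
      rw [h0]
      cases oc L p i <;> cases w i <;> simp
    rw [Finset.sum_congr rfl fun i _ => h4 i]
    simp [ZMod.card]
  linarith

/-- an antisymmetric walk with steps `2` and `-2` on the circle -/
structure Walk (L : ℕ) (K : ZMod (2 * L) → ℤ) : Prop where
  step : ∀ p, K (p + 1) = K p + 2 ∨ K (p + 1) = K p - 2
  anti : ∀ p, K (p + (L : ZMod (2 * L))) = 2 * L - K p

lemma walk_hd (w : ZMod (2 * L) → Bool) (hw : Anti L w) :
    Walk L fun p => (hd (oc L p) w : ℤ) := by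
  constructor
  · intro p
    have h := step w hw p
    split_ifs at h with h1
    · left; exact h
    · right; simpa [sub_eq_add_neg] using h
  · intro p
    exact anti w p

/-- local minima -/
def LMin (K : ZMod (2 * L) → ℤ) (b : ZMod (2 * L)) : Prop := K (b - 1) = K b + 2 ∧ K (b + 1) = K b + 2

lemma Walk.back {K : ZMod (2 * L) → ℤ} (h : Walk L K) (p : ZMod (2 * L)) :
    K (p - 1) = K p + 2 ∨ K (p - 1) = K p - 2 := by
  have h1 := h.step (p - 1)
  rw [sub_add_cancel] at h1
  omega

lemma Walk.not_lmin {K : ZMod (2 * L) → ℤ} (h : Walk L K) {b : ZMod (2 * L)} (hb : ¬ LMin K b) :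
    K (b - 1) = K b - 2 ∨ K (b + 1) = K b - 2 := by
  unfold LMin at hb
  have h1 := h.back b
  have h2 := h.step b
  omega

lemma Walk.add_nat {K : ZMod (2 * L) → ℤ} (h : Walk L K) (p : ZMod (2 * L)) (n : ℕ) :
    K (p + (n : ZMod (2 * L))) ≤ K p + 2 * n := by
  induction n with
  | zero => simp
  | succ n ih =>
    have h1 := h.step (p + (n : ZMod (2 * L)))
    have h2 : p + ((n + 1 : ℕ) : ZMod (2 * L)) = p + (n : ZMod (2 * L)) + 1 := by
      push_cast
      ring
    rw [h2]
    push_cast
    omega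

lemma Walk.nonneg {K : ZMod (2 * L) → ℤ} (h : Walk L K) (p : ZMod (2 * L)) : 0 ≤ K p := by
  have h1 := h.add_nat p L
  have h2 := h.anti p
  omega

lemma Walk.le {K : ZMod (2 * L) → ℤ} (h : Walk L K) (p : ZMod (2 * L)) : K p ≤ 2 * L := by
  have h1 := h.nonneg (p + (L : ZMod (2 * L)))
  have h2 := h.anti p
  omega

/-- the doubled distance of two places -/
abbrev dm (p b : ZMod (2 * L)) : ℤ := (hd (oc L p) (oc L b) : ℤ)

lemma dm_comm (p b : ZMod (2 * L)) : dm p b = dm b p := by
  unfold dm
  rw [hd_comm]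

lemma dm_self (b : ZMod (2 * L)) : dm b b = 0 := by
  unfold dm
  rw [hd_self]
  rfl

lemma dm_succ (p b : ZMod (2 * L)) : dm p (b + 1) ≤ dm p b + 2 ∧ dm p b ≤ dm p (b + 1) + 2 := by
  have h := step (oc L p) (oc_anti p) b
  rw [dm_comm p (b + 1), dm_comm p b]
  unfold dm
  split_ifs at h <;> constructor <;> linarith

lemma dm_pred (p b : ZMod (2 * L)) : dm p (b - 1) ≤ dm p b + 2 ∧ dm p b ≤ dm p (b - 1) + 2 := by
  have h := dm_succ p (b - 1)
  rw [sub_add_cancel] at h
  exact ⟨h.2, h.1⟩

/-- concavity off the point `p` -/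
lemma dm_conc {p b : ZMod (2 * L)} (hpb : b ≠ p) : dm p (b - 1) + dm p (b + 1) ≤ 2 * dm p b := by
  have h1 := step (oc L p) (oc_anti p) b
  have h2 := step (oc L p) (oc_anti p) (b - 1)
  rw [sub_add_cancel] at h2
  rw [dm_comm p (b - 1), dm_comm p (b + 1), dm_comm p b]
  unfold dm
  -- not: false at `b - 1` and true at `b`
  have h3 : ¬ (oc L p (b - 1) = false ∧ oc L p b = true) := by
    rintro ⟨h4, h5⟩
    unfold oc at h4 h5
    have hx : b - p ≠ 0 := sub_ne_zero.mpr hpb
    have h6 : b - 1 - p = (b - p) - 1 := by ring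
    rw [h6, val_pred hx] at h4
    simp only [decide_eq_true_eq, decide_eq_false_iff_not, not_lt] at h4 h5
    omega
  split_ifs at h1 h2 with h4 h5 h5
  · linarith
  · exfalso
    apply h3
    refine ⟨?_, h4⟩
    simpa using h5
  · linarith
  · linarith

/-- below every point there is a local minimum which sees it -/
lemma Walk.see {K : ZMod (2 * L) → ℤ} (h : Walk L K) (p : ZMod (2 * L)) :
    ∃ b, LMin K b ∧ K b + dm p b ≤ K p := by
  classical
  obtain ⟨b, hb, hmin⟩ := Finset.exists_min_image
    (Finset.univ.filter fun b => K b + dm p b ≤ K p) K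
    ⟨p, by simp [dm_self]⟩
  simp only [Finset.mem_filter, Finset.mem_univ, true_and] at hb hmin
  refine ⟨b, ?_, hb⟩
  by_contra hno
  rcases h.not_lmin hno with h1 | h1
  · have h2 := dm_pred p b
    have h3 := hmin (b - 1) (by linarith [h2.1])
    linarith
  · have h2 := dm_succ p b
    have h3 := hmin (b + 1) (by linarith [h2.1])
    linarith

/-- the base case: no low local maximum -/
lemma base {K : ZMod (2 * L) → ℤ} (h : Walk L K) (hK : ∀ b, LMin K b → K b ≤ L) :
    ∃ c : ZMod (2 * L) → ℝ, (∀ b, 0 ≤ c b) ∧ ∑ b, c b = 1 ∧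
      ∀ p, ∑ b, c b * ((min (dm p b) L : ℤ) : ℝ) ≤ K p := by
  classical
  have hL := Lpos (L := L)
  have hLR : (0 : ℝ) < L := by exact_mod_cast hL
  -- the sum over the local minima
  have hsum : ∑ b, (if LMin K b then (L : ℤ) - K b else 0) = L := by
    set H : ZMod (2 * L) → ℤ := fun p => L - K p with hH
    have e1 : ∑ p, H p * (H (p + 1) + H (p - 1) - 2 * H p) = - (8 * L) := by
      have s1 : ∑ p, H p * H (p - 1) = ∑ p, H (p + 1) * H p := by
        rw [← Equiv.sum_comp (Equiv.addRight (1 : ZMod (2 * L))) (fun p => H p * H (p - 1))]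
        refine Finset.sum_congr rfl fun p _ => ?_
        simp
      have s2 : ∑ p, H (p + 1) ^ 2 = ∑ p, H p ^ 2 :=
        Equiv.sum_comp (Equiv.addRight (1 : ZMod (2 * L))) (fun p => H p ^ 2)
      have s3 : ∑ p, (H (p + 1) - H p) ^ 2 = 8 * L := by
        have : ∀ p, (H (p + 1) - H p) ^ 2 = 4 := by
          intro p
          rcases h.step p with h1 | h1
          · simp only [hH, h1]; ring
          · simp only [hH, h1]; ring
        rw [Finset.sum_congr rfl fun p _ => this p]
        simp [ZMod.card]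
        ring
      have s4 : ∑ p, (H (p + 1) - H p) ^ 2 =
          ∑ p, H (p + 1) ^ 2 + ∑ p, H p ^ 2 - 2 * ∑ p, H (p + 1) * H p := by
        rw [Finset.mul_sum, ← Finset.sum_add_distrib, ← Finset.sum_sub_distrib]
        refine Finset.sum_congr rfl fun p _ => ?_
        ring
      have s5 : ∑ p, H p * (H (p + 1) + H (p - 1) - 2 * H p) =
          ∑ p, H (p + 1) * H p + ∑ p, H p * H (p - 1) - 2 * ∑ p, H p ^ 2 := by
        rw [Finset.mul_sum, ← Finset.sum_add_distrib, ← Finset.sum_sub_distrib]
        refine Finset.sum_congr rfl fun p _ => ?_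
        ring
      rw [s5, s1]
      linarith
    have e2 : ∀ p, H p * (H (p + 1) + H (p - 1) - 2 * H p) =
        -4 * (if LMin K p then H p else 0) -
          4 * (if LMin K (p + (L : ZMod (2 * L))) then H (p + (L : ZMod (2 * L))) else 0) := by
      intro p
      have a1 := h.anti p
      have a2 := h.anti (p + 1)
      have a3 := h.anti (p - 1)
      have r1 : p + 1 + (L : ZMod (2 * L)) = p + (L : ZMod (2 * L)) + 1 := by ring
      have r2 : p - 1 + (L : ZMod (2 * L)) = p + (L : ZMod (2 * L)) - 1 := by ring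
      rw [r1] at a2
      rw [r2] at a3
      have b1 := h.step p
      have b2 := h.back p
      have hq : LMin K (p + (L : ZMod (2 * L))) ↔ (K (p - 1) = K p - 2 ∧ K (p + 1) = K p - 2) := by
        unfold LMin
        rw [a1, a2, a3]
        omega
      simp only [hq]
      unfold LMin
      simp only [hH, a1]
      rcases b1 with b1 | b1 <;> rcases b2 with b2 | b2
      · rw [if_pos ⟨b2, b1⟩, if_neg (by omega), b1, b2]
        ring
      · rw [if_neg (by omega), if_neg (by omega), b1, b2]
        ring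
      · rw [if_neg (by omega), if_neg (by omega), b1, b2]
        ring
      · rw [if_neg (by omega), if_pos ⟨b2, b1⟩, b1, b2]
        ring
    have e3 : ∑ p, (if LMin K (p + (L : ZMod (2 * L))) then H (p + (L : ZMod (2 * L))) else 0) =
        ∑ p, (if LMin K p then H p else 0) :=
      Equiv.sum_comp (Equiv.addRight (L : ZMod (2 * L))) (fun p => if LMin K p then H p else 0)
    have e4 : ∑ p, H p * (H (p + 1) + H (p - 1) - 2 * H p) =
        -8 * ∑ p, (if LMin K p then H p else 0) := by
      rw [Finset.sum_congr rfl fun p _ => e2 p, Finset.sum_sub_distrib, ← Finset.mul_sum,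
        ← Finset.mul_sum, e3]
      ring
    rw [e1] at e4
    have : ∑ b, (if LMin K b then (L : ℤ) - K b else 0) = ∑ p, (if LMin K p then H p else 0) := rfl
    rw [this]
    linarith
  let c : ZMod (2 * L) → ℝ := fun b => ((if LMin K b then (L : ℤ) - K b else 0 : ℤ) : ℝ) / L
  have hc0 : ∀ b, 0 ≤ c b := by
    intro b
    simp only [c]
    refine div_nonneg ?_ hLR.le
    have : 0 ≤ (if LMin K b then (L : ℤ) - K b else 0) := by
      split_ifs with h1
      · have := hK b h1
        omega
      · exact le_refl _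
    exact_mod_cast this
  have hc1 : ∑ b, c b = 1 := by
    simp only [c]
    rw [← Finset.sum_div, div_eq_one_iff_eq hLR.ne']
    have : ((∑ b, (if LMin K b then (L : ℤ) - K b else 0) : ℤ) : ℝ) = (L : ℝ) := by
      rw [hsum]
      simp
    rw [← this]
    push_cast
    rfl
  refine ⟨c, hc0, hc1, ?_⟩
  intro p
  obtain ⟨b, hb, hbp⟩ := h.see p
  -- all other places contribute at most `L`
  have h1 : ∑ x, c x * ((min (dm p x) L : ℤ) : ℝ) ≤
      (∑ x, c x * L) - c b * (L - ((min (dm p b) L : ℤ) : ℝ)) := by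
    have h2 : ∑ x, c x * ((min (dm p x) L : ℤ) : ℝ) = (∑ x, c x * L) -
        ∑ x, c x * (L - ((min (dm p x) L : ℤ) : ℝ)) := by
      rw [← Finset.sum_sub_distrib]
      refine Finset.sum_congr rfl fun x _ => ?_
      ring
    rw [h2]
    have h3 : c b * (L - ((min (dm p b) L : ℤ) : ℝ)) ≤
        ∑ x, c x * (L - ((min (dm p x) L : ℤ) : ℝ)) := by
      refine Finset.single_le_sum (f := fun x => c x * (L - ((min (dm p x) L : ℤ) : ℝ)))
        (fun x _ => ?_) (Finset.mem_univ b)
      refine mul_nonneg (hc0 x) ?_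
      have : (min (dm p x) L : ℤ) ≤ L := min_le_right _ _
      have h4 : ((min (dm p x) L : ℤ) : ℝ) ≤ (L : ℝ) := by exact_mod_cast this
      linarith
    linarith
  rw [← Finset.sum_mul, hc1, one_mul] at h1
  have hcb : c b = ((L : ℝ) - K b) / L := by
    simp only [c]
    rw [if_pos hb]
    push_cast
    ring
  have hKb0 : (0 : ℝ) ≤ K b := by exact_mod_cast h.nonneg b
  have hKbL : (K b : ℝ) ≤ L := by exact_mod_cast hK b hb
  have hKp : (K b : ℝ) + dm p b ≤ K p := by exact_mod_cast hbp
  rcases le_total (dm p b) (L : ℤ) with h5 | h5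
  · rw [min_eq_left h5] at h1
    have h6 : c b * ((L : ℝ) - (dm p b : ℤ)) = ((L : ℝ) - K b) - ((L : ℝ) - K b) / L * (dm p b : ℤ) := by
      rw [hcb]
      field_simp
    have h7 : ((L : ℝ) - K b) / L ≤ 1 := by
      rw [div_le_one hLR]
      linarith
    have h8 : (0 : ℝ) ≤ (dm p b : ℤ) := by
      unfold dm
      positivity
    have h9 : ((L : ℝ) - K b) / L * (dm p b : ℤ) ≤ 1 * (dm p b : ℤ) :=
      mul_le_mul_of_nonneg_right h7 h8
    rw [h6] at h1
    linarith
  · rw [min_eq_right h5] at h1
    have h6 : (L : ℝ) ≤ ((dm p b : ℤ) : ℝ) := by exact_mod_cast h5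
    rw [Int.cast_natCast, sub_self, mul_zero, sub_zero] at h1
    exact le_trans h1 (by linarith)

/-- turning a high local minimum into a local maximum -/
lemma lower {K : ZMod (2 * L) → ℤ} (h : Walk L K) {b : ZMod (2 * L)} (hb : LMin K b)
    (hbL : (L : ℤ) < K b) :
    Walk L (fun p => if p = b then K b + 4 else if p = b + (L : ZMod (2 * L)) then
      K (b + (L : ZMod (2 * L))) - 4 else K p) := by
  have hL := Lpos (L := L)
  have hne : b + (L : ZMod (2 * L)) ≠ b := by
    intro h
    exact L_ne (L := L) (by simpa using h)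
  have hanti := h.anti b
  obtain ⟨h1, h2⟩ := hb
  have hn1 : b + 1 ≠ b + (L : ZMod (2 * L)) := by
    intro h3
    rw [h3] at h2
    omega
  have hn2 : b - 1 ≠ b + (L : ZMod (2 * L)) := by
    intro h3
    rw [h3] at h1
    omega
  have hn3 : b + 1 ≠ b := by
    intro h3
    exact one_ne (L := L) (by simpa using h3)
  have hn4 : b - 1 ≠ b := by
    intro h3
    exact one_ne (L := L) (by simpa using h3)
  have ha1 := h.anti (b + 1)
  have ha2 := h.anti (b - 1)
  have r1 : b + 1 + (L : ZMod (2 * L)) = b + (L : ZMod (2 * L)) + 1 := by ring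
  have r2 : b - 1 + (L : ZMod (2 * L)) = b + (L : ZMod (2 * L)) - 1 := by ring
  rw [r1] at ha1
  rw [r2] at ha2
  constructor
  · intro p
    by_cases e1 : p = b
    · subst e1
      rw [if_pos rfl, if_neg hn3, if_neg hn1]
      omega
    · rw [if_neg e1]
      by_cases e2 : p + 1 = b
      · have e3 : p = b - 1 := by rw [← e2]; ring
        rw [if_pos e2, if_neg (by rw [e3]; exact hn2), e3]
        omega
      · rw [if_neg e2]
        by_cases e4 : p = b + (L : ZMod (2 * L))
        · have e5 : p + 1 ≠ b + (L : ZMod (2 * L)) := by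
            rw [e4]
            intro h3
            exact one_ne (L := L) (by simpa using h3)
          rw [if_pos e4, if_neg e5, e4]
          omega
        · rw [if_neg e4]
          by_cases e6 : p + 1 = b + (L : ZMod (2 * L))
          · rw [if_pos e6]
            have e7 : p = b + (L : ZMod (2 * L)) - 1 := by rw [← e6]; ring
            rw [e7]
            omega
          · rw [if_neg e6]
            exact h.step p
  · intro p
    by_cases e1 : p = b
    · subst e1
      rw [if_neg hne, if_pos rfl, if_pos rfl]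
      omega
    · rw [if_neg e1]
      by_cases e2 : p = b + (L : ZMod (2 * L))
      · rw [if_pos e2]
        have e3 : p + (L : ZMod (2 * L)) = b := by
          rw [e2, add_assoc, LL, add_zero]
        rw [if_pos e3]
        omega
      · rw [if_neg e2]
        have e3 : p + (L : ZMod (2 * L)) ≠ b := by
          intro h3
          apply e2
          rw [← h3, add_assoc, LL, add_zero]
        have e4 : p + (L : ZMod (2 * L)) ≠ b + (L : ZMod (2 * L)) := by
          intro h3
          exact e1 (add_right_cancel h3)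
        rw [if_neg e3, if_neg e4]
        exact h.anti p

/-- a walk below `D` where `D < L`, without high local minimum -/
lemma exists_base {D : ZMod (2 * L) → ℤ} (hD : Walk L D) :
    ∃ K : ZMod (2 * L) → ℤ, Walk L K ∧ (∀ p, D p < L → K p ≤ D p) ∧ ∀ b, LMin K b → K b ≤ L := by
  classical
  have hL := Lpos (L := L)
  let S : Set (ZMod (2 * L) → ℤ) := {K | Walk L K ∧ ∀ p, D p < L → K p ≤ D p}
  have hfin : S.Finite := by
    refine Set.Finite.subset (Set.finite_Icc (fun _ : ZMod (2 * L) => (0 : ℤ)) (fun _ => (2 * L : ℤ))) ?_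
    intro K hK
    rw [Set.mem_Icc]
    exact ⟨fun p => hK.1.nonneg p, fun p => hK.1.le p⟩
  have hne : S.Nonempty := ⟨D, hD, fun p _ => le_refl _⟩
  obtain ⟨K, hK, hmax⟩ := Set.exists_max_image S (fun K => ∑ p, ((L : ℤ) - K p) ^ 2) hfin hne
  refine ⟨K, hK.1, hK.2, ?_⟩
  intro b hb
  by_contra hno
  push Not at hno
  have hne : b + (L : ZMod (2 * L)) ≠ b := by
    intro h
    exact L_ne (L := L) (by simpa using h)
  have hanti := hK.1.anti b
  set K' : ZMod (2 * L) → ℤ := (fun p => if p = b then K b + 4 else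
    if p = b + (L : ZMod (2 * L)) then K (b + (L : ZMod (2 * L))) - 4 else K p) with hK'
  have hS : K' ∈ S := by
    refine ⟨lower hK.1 hb hno, ?_⟩
    intro p hp
    simp only [hK']
    by_cases e1 : p = b
    · exfalso
      have := hK.2 p hp
      rw [e1] at this hp
      omega
    · rw [if_neg e1]
      by_cases e2 : p = b + (L : ZMod (2 * L))
      · rw [if_pos e2]
        have := hK.2 p hp
        rw [← e2]
        omega
      · rw [if_neg e2]
        exact hK.2 p hp
  have h1 := hmax K' hS
  have h2 : ∑ p, ((L : ℤ) - K p) ^ 2 < ∑ p, ((L : ℤ) - K' p) ^ 2 := by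
    refine Finset.sum_lt_sum ?_ ⟨b, Finset.mem_univ b, ?_⟩
    · intro p _
      simp only [hK']
      by_cases e1 : p = b
      · rw [if_pos e1, e1]
        nlinarith
      · rw [if_neg e1]
        by_cases e2 : p = b + (L : ZMod (2 * L))
        · rw [if_pos e2, e2, hanti]
          nlinarith
        · rw [if_neg e2]
    · simp only [hK', if_true]
      nlinarith
  exact absurd h1 (not_le.mpr h2)

/-- weights with arbitrary support -/
lemma feasible {D : ZMod (2 * L) → ℤ} (hD : Walk L D) :
    ∃ c : ZMod (2 * L) → ℝ, (∀ b, 0 ≤ c b) ∧ ∑ b, c b = 1 ∧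
      ∀ p, ∑ b, c b * ((min (dm p b) L : ℤ) : ℝ) ≤ D p := by
  obtain ⟨K, hK, hKD, hbase⟩ := exists_base hD
  obtain ⟨c, h0, h1, h2⟩ := base hK hbase
  refine ⟨c, h0, h1, ?_⟩
  intro p
  rcases lt_or_ge (D p) (L : ℤ) with h3 | h3
  · refine le_trans (h2 p) ?_
    exact_mod_cast hKD p h3
  · have h4 : ∑ b, c b * ((min (dm p b) L : ℤ) : ℝ) ≤ ∑ b, c b * L := by
      refine Finset.sum_le_sum fun b _ => mul_le_mul_of_nonneg_left ?_ (h0 b)
      have : (min (dm p b) L : ℤ) ≤ L := min_le_right _ _
      exact_mod_cast this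
    rw [← Finset.sum_mul, h1, one_mul] at h4
    have h5 : (L : ℝ) ≤ D p := by exact_mod_cast h3
    linarith

/-- the set of the feasible weights -/
def Feas (D : ZMod (2 * L) → ℤ) : Set (ZMod (2 * L) → ℝ) :=
  stdSimplex ℝ (ZMod (2 * L)) ∩ {c | ∀ p, ∑ b, c b * ((min (dm p b) L : ℤ) : ℝ) ≤ D p}

lemma feas_compact (D : ZMod (2 * L) → ℤ) : IsCompact (Feas D) := by
  refine (isCompact_stdSimplex ℝ (ZMod (2 * L))).inter_right ?_
  rw [Set.ofPred_forall]
  refine isClosed_iInter fun p => ?_
  refine isClosed_le ?_ continuous_const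
  exact continuous_finsetSum _ fun b _ => (continuous_apply b).mul continuous_const

/-- moving the mass at `b` to the neighbours -/
noncomputable def sweep (c : ZMod (2 * L) → ℝ) (b : ZMod (2 * L)) : ZMod (2 * L) → ℝ := fun x =>
  c x - (if x = b then c b else 0) + (if x = b - 1 then c b / 2 else 0) +
    (if x = b + 1 then c b / 2 else 0)

lemma sweep_sum (c : ZMod (2 * L) → ℝ) (b : ZMod (2 * L)) (F : ZMod (2 * L) → ℝ) :
    ∑ x, sweep c b x * F x = ∑ x, c x * F x + c b * ((F (b - 1) + F (b + 1)) / 2 - F b) := by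
  unfold sweep
  have h1 : ∀ x, (c x - (if x = b then c b else 0) + (if x = b - 1 then c b / 2 else 0) +
      (if x = b + 1 then c b / 2 else 0)) * F x = c x * F x - (if x = b then c b * F x else 0) +
      (if x = b - 1 then c b / 2 * F x else 0) + (if x = b + 1 then c b / 2 * F x else 0) := by
    intro x
    split_ifs <;> ring
  rw [Finset.sum_congr rfl fun x _ => h1 x, Finset.sum_add_distrib, Finset.sum_add_distrib,
    Finset.sum_sub_distrib]
  simp only [Finset.sum_ite_eq', Finset.mem_univ, if_true]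
  ring

lemma sweep_nonneg {c : ZMod (2 * L) → ℝ} (h0 : ∀ b, 0 ≤ c b) (b x : ZMod (2 * L)) :
    0 ≤ sweep c b x := by
  unfold sweep
  have h1 := h0 b
  have h2 := h0 x
  have h3 : 0 ≤ c x - (if x = b then c b else 0) := by
    split_ifs with h
    · rw [h]; simp
    · simpa using h2
  have h4 : 0 ≤ (if x = b - 1 then c b / 2 else 0) := by split_ifs <;> linarith
  have h5 : 0 ≤ (if x = b + 1 then c b / 2 else 0) := by split_ifs <;> linarith
  linarith

/-- sweeping a place which is no local minimum keeps the weights feasible -/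
lemma sweep_feas {D : ZMod (2 * L) → ℤ} (hD : Walk L D) {c : ZMod (2 * L) → ℝ} (hc : c ∈ Feas D)
    {b : ZMod (2 * L)} (hb : ¬ LMin D b) : sweep c b ∈ Feas D := by
  have hcs : (∀ x, 0 ≤ c x) ∧ ∑ x, c x = 1 := hc.1
  obtain ⟨h0, h1⟩ := hcs
  have hs0 : ∀ x, 0 ≤ sweep c b x := sweep_nonneg h0 b
  have hs1 : ∑ x, sweep c b x = 1 := by
    have := sweep_sum c b (fun _ => 1)
    simp only [mul_one] at this
    rw [this, h1]
    ring
  refine ⟨⟨hs0, hs1⟩, ?_⟩
  -- the places different from `b`
  have hoff : ∀ p, p ≠ b → ∑ x, sweep c b x * ((min (dm p x) L : ℤ) : ℝ) ≤ D p := by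
    intro p hp
    rw [sweep_sum c b (fun x => ((min (dm p x) L : ℤ) : ℝ))]
    have h2 := hc.2 p
    have h3 := dm_conc (p := p) (b := b) (Ne.symm hp)
    have h4 : (min (dm p (b - 1)) L : ℤ) + min (dm p (b + 1)) L ≤ 2 * min (dm p b) L := by
      rcases le_total (dm p b) (L : ℤ) with h5 | h5
      · rw [min_eq_left h5]
        have := min_le_left (dm p (b - 1)) (L : ℤ)
        have := min_le_left (dm p (b + 1)) (L : ℤ)
        linarith
      · rw [min_eq_right h5]
        have := min_le_right (dm p (b - 1)) (L : ℤ)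
        have := min_le_right (dm p (b + 1)) (L : ℤ)
        linarith
    have h5 : ((min (dm p (b - 1)) L : ℤ) : ℝ) + ((min (dm p (b + 1)) L : ℤ) : ℝ) ≤
        2 * ((min (dm p b) L : ℤ) : ℝ) := by exact_mod_cast h4
    have h6 : c b * ((((min (dm p (b - 1)) L : ℤ) : ℝ) + ((min (dm p (b + 1)) L : ℤ) : ℝ)) / 2 -
        ((min (dm p b) L : ℤ) : ℝ)) ≤ 0 := mul_nonpos_of_nonneg_of_nonpos (h0 b) (by linarith)
    linarith
  have hkey : ∀ n, n ≠ b → D n = D b - 2 → (∀ x, dm b x ≤ dm n x + 2) →
      ∑ x, sweep c b x * ((min (dm b x) L : ℤ) : ℝ) ≤ D b := by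
    intro n hn hDn hdm
    have h2 := hoff n hn
    have h3 : ∑ x, sweep c b x * ((min (dm b x) L : ℤ) : ℝ) ≤
        ∑ x, sweep c b x * (((min (dm n x) L : ℤ) : ℝ) + 2) := by
      refine Finset.sum_le_sum fun x _ => mul_le_mul_of_nonneg_left ?_ (hs0 x)
      have h4 : (min (dm b x) L : ℤ) ≤ min (dm n x) L + 2 := by
        have := hdm x
        omega
      exact_mod_cast h4
    have h5 : ∑ x, sweep c b x * (((min (dm n x) L : ℤ) : ℝ) + 2) =
        ∑ x, sweep c b x * ((min (dm n x) L : ℤ) : ℝ) + 2 := by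
      have : ∀ x, sweep c b x * (((min (dm n x) L : ℤ) : ℝ) + 2) =
          sweep c b x * ((min (dm n x) L : ℤ) : ℝ) + sweep c b x * 2 := fun x => by ring
      rw [Finset.sum_congr rfl fun x _ => this x, Finset.sum_add_distrib, ← Finset.sum_mul, hs1]
      ring
    have h6 : (D n : ℝ) = D b - 2 := by
      rw [hDn]
      push_cast
      ring
    linarith
  intro p
  by_cases hp : p = b
  · subst hp
    have hn1 : p + 1 ≠ p := by
      intro h3
      exact one_ne (L := L) (by simpa using h3)
    have hn2 : p - 1 ≠ p := by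
      intro h3
      exact one_ne (L := L) (by simpa using h3)
    rcases hD.not_lmin hb with h2 | h2
    · refine hkey (p - 1) hn2 h2 fun x => ?_
      have := (dm_pred x p).2
      rw [dm_comm p x, dm_comm (p - 1) x]
      exact this
    · refine hkey (p + 1) hn1 h2 fun x => ?_
      have := (dm_succ x p).2
      rw [dm_comm p x, dm_comm (p + 1) x]
      exact this
  · exact hoff p hp

/-- weights on the local minima -/
lemma lam_walk {D : ZMod (2 * L) → ℤ} (hD : Walk L D) :
    ∃ c ∈ Feas D, ∀ b, c b ≠ 0 → LMin D b := by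
  obtain ⟨c0, h0, h1, h2⟩ := feasible hD
  have hne : (Feas D).Nonempty := ⟨c0, ⟨h0, h1⟩, h2⟩
  have hcont : ContinuousOn (fun c : ZMod (2 * L) → ℝ =>
      ∑ b, c b * ((2 * (L : ℝ) + 2 - D b) ^ 2)) (Feas D) := by
    refine Continuous.continuousOn ?_
    exact continuous_finsetSum _ fun b _ => (continuous_apply b).mul continuous_const
  obtain ⟨c, hc, hmax⟩ := (feas_compact D).exists_isMaxOn hne hcont
  refine ⟨c, hc, ?_⟩
  intro b hb
  by_contra hno
  have hcs : (∀ x, 0 ≤ c x) ∧ ∑ x, c x = 1 := hc.1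
  have hcb : 0 < c b := lt_of_le_of_ne (hcs.1 b) (Ne.symm hb)
  have h3 := hmax (sweep_feas hD hc hno)
  simp only [Set.mem_ofPred_eq] at h3
  rw [sweep_sum c b (fun x => (2 * (L : ℝ) + 2 - D x) ^ 2)] at h3
  have hle : (D b : ℝ) ≤ 2 * L := by exact_mod_cast hD.le b
  have h4 : 0 < ((2 * (L : ℝ) + 2 - D (b - 1)) ^ 2 + (2 * (L : ℝ) + 2 - D (b + 1)) ^ 2) / 2 -
      (2 * (L : ℝ) + 2 - D b) ^ 2 := by
    have s1 := hD.step b
    have s2 := hD.back b
    have hno' : ¬ (D (b - 1) = D b + 2 ∧ D (b + 1) = D b + 2) := hno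
    rcases s1 with s1 | s1 <;> rcases s2 with s2 | s2
    · exact absurd ⟨s2, s1⟩ hno'
    all_goals
      rw [s1, s2]
      push_cast
      nlinarith
  have h5 := mul_pos hcb h4
  linarith

end LamProof

open LamProof in
/-- **Lemma Lambda.** -/
theorem lam (w : ZMod (2 * L) → Bool) (hw : Anti L w) : ∃ c, Lam w c := by
  obtain ⟨c, hc, hsupp⟩ := lam_walk (walk_hd w hw)
  have hcs : (∀ x, 0 ≤ c x) ∧ ∑ x, c x = 1 := hc.1
  refine ⟨c, hcs.1, hcs.2, ?_, ?_⟩
  · intro b hb
    obtain ⟨h1, h2⟩ := hsupp b hb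
    simp only at h1 h2
    have s1 := step w hw b
    have s2 := step w hw (b - 1)
    rw [sub_add_cancel] at s2
    constructor
    · cases h : w (b - 1)
      · rfl
      · rw [h, if_pos rfl] at s2
        omega
    · cases h : w b
      · rw [h] at s1
        simp only [Bool.false_eq_true, if_false] at s1
        omega
      · rfl
  · intro p
    have h1 := hc.2 p
    have h2 : ∀ b, ((min (dm p b) L : ℤ) : ℝ) = ((min (hd (oc L p) (oc L b)) L : ℕ) : ℝ) := by
      intro b
      unfold dm
      have : (min ((hd (oc L p) (oc L b) : ℕ) : ℤ) (L : ℤ) : ℤ) =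
          ((min (hd (oc L p) (oc L b)) L : ℕ) : ℤ) := by
        push_cast
        rfl
      rw [this]
      push_cast
      rfl
    simp only [h2, Int.cast_natCast] at h1
    exact h1

end Pool.Agent.H56.EH
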